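import Pool.Agent.LoopPerc.LoopLimits
import Pool.Agent.LoopPerc.VolLimit
import Pool.Agent.LoopPerc.Mono

/-!
# Subcritical loop percolation in `d ≥ 5`: the three limits exist

The definitions (the random walk loop measure, the loop soup, open edges, the cluster of the
origin, `α_#`, the Euclidean norm) are in `Pool/Agent/LoopPerc/Defs.lean`.
-/

namespace Pool.Agent.Results.MP_b22ef1_pr.AllLimits

open MeasureTheory ProbabilityTheory Filter Topology
open Pool.Agent.LoopPerc Pool.Agent.LoopPerc.HSys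
open scoped ENNReal NNReal

lemma chi_ne_top {d : ℕ} (hd : 1 ≤ d) {α : ℝ≥0} (h : (α : ℝ≥0∞) < alphaSharp d) :
    (loopSys d α).chi ≠ ⊤ := by
  have h1 := meanSize_lt_top_of_lt d h
  have h2 : meanSize d α = (loopSys d α).chi := by
    unfold meanSize chi
    rw [lintegral_congr_ae (g := fun N => (((loopSys d α).clus Set.univ N 0).encard : ℝ≥0∞))]
    · exact HSys.lintegral_encard_clus (H := loopSys d α) Set.univ 0
    · filter_upwards [cluster_eq_clus d hd α] with N hN
      rw [hN]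
  rw [← h2]
  exact h1.ne

lemma soup_congr {d : ℕ} (hd : 1 ≤ d) (α : ℝ≥0) (q : Set (Lat d) → Prop) :
    soup d α {N | q (cluster N)} = (loopSys d α).P {N | q ((loopSys d α).clus Set.univ N 0)} := by
  refine measure_congr ?_
  filter_upwards [cluster_eq_clus d hd α] with N hN
  change q (cluster N) = q ((loopSys d α).clus Set.univ N 0)
  rw [hN]

lemma comap_enorm2_le (d : ℕ) : comap (enorm2 (d := d)) atTop ≤ cofinite := by
  rw [le_cofinite_iff_compl_singleton_mem]
  intro x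
  rw [mem_comap]
  refine ⟨Set.Ioi (enorm2 x), Ioi_mem_atTop _, ?_⟩
  intro y hy
  simp only [Set.mem_preimage, Set.mem_Ioi] at hy
  rintro rfl
  exact lt_irrefl _ hy

lemma real_of_ennreal {X : Type*} {l : Filter X} {a : X → ℝ} {m : X → ℝ≥0∞} {L : ℝ} (hL : 0 ≤ L)
    (ha : ∀ᶠ x in l, 0 ≤ a x)
    (h : Tendsto (fun x => ENNReal.ofReal (a x) * m x) l (𝓝 (ENNReal.ofReal L))) :
    Tendsto (fun x => a x * (m x).toReal) l (𝓝 L) := by
  have h1 := (ENNReal.tendsto_toReal ENNReal.ofReal_ne_top).comp h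
  rw [ENNReal.toReal_ofReal hL] at h1
  refine h1.congr' ?_
  filter_upwards [ha] with x hx
  simp only [Function.comp]
  rw [ENNReal.toReal_mul, ENNReal.toReal_ofReal hx]

/-- For `d ≥ 5` and `0 < α < α_#` the three limits of the sharp asymptotics of subcritical loop
percolation exist. -/
theorem result (d : ℕ) (hd : 5 ≤ d) (α : ℝ≥0) (_hα : 0 < α) (hα' : (α : ℝ≥0∞) < alphaSharp d) :
    (∃ L : ℝ, Tendsto (fun n : ℕ => (n : ℝ) ^ (d - 2) *
      (soup d α).real {N | ∃ x ∈ cluster N, ‖x‖ = (n : ℝ)}) atTop (𝓝 L)) ∧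
    (∃ L : ℝ, Tendsto (fun x : Lat d => enorm2 x ^ (2 * (d - 2)) *
      (soup d α).real {N | x ∈ cluster N}) (comap enorm2 atTop) (𝓝 L)) ∧
    (∃ L : ℝ, Tendsto (fun n : ℕ => (n : ℝ) ^ ((d : ℝ) / 2 - 1) *
      (soup d α).real {N | (n : ℕ∞) < (cluster N).encard}) atTop (𝓝 L)) := by
  have hd1 : 1 ≤ d := by omega
  have hchi := chi_ne_top hd1 hα'
  obtain ⟨sh, hact⟩ := exists_shift d hd1 α
  refine ⟨?_, ?_, ?_⟩
  · obtain ⟨L, hL0, hL⟩ := loop_one_arm hd α sh hchi
    refine ⟨L, ?_⟩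
    have h1 := real_of_ennreal (a := fun n : ℕ => (n : ℝ) ^ ((d - 2 : ℕ) : ℝ)) hL0
      (Eventually.of_forall fun n => by positivity) (hL.comp tendsto_natCast_atTop_atTop)
    refine h1.congr fun n => ?_
    rw [Real.rpow_natCast]
    congr 1
    rw [measureReal_def]
    congr 1
    have h2 : {N : Cycle (Lat d) → ℕ | ∃ x ∈ cluster N, ‖x‖ = (n : ℝ)} =
        {N | ∃ x ∈ cluster N, (n : ℝ) ≤ ‖x‖} := by
      ext N
      exact exists_norm_eq d N n
    rw [h2, soup_congr hd1 α (fun C => ∃ x ∈ C, (n : ℝ) ≤ ‖x‖)]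
    unfold arm tauT
    congr 1
    ext N
    constructor
    · rintro ⟨x, hx, hc⟩; exact ⟨x, hc, hx⟩
    · rintro ⟨x, hx, hc⟩; exact ⟨x, hc, hx⟩
  · obtain ⟨L, hL0, hL⟩ := loop_two_point hd α sh hchi
    refine ⟨L, ?_⟩
    have h1 := real_of_ennreal (a := fun x : Lat d => enorm2 x ^ (2 * (d - 2))) hL0
      (Eventually.of_forall fun x => by have := enorm2_nonneg x; positivity) hL
    refine (h1.congr fun x => ?_).mono_left (comap_enorm2_le d)
    congr 1
    rw [measureReal_def]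
    congr 1
    rw [soup_congr hd1 α (fun C => x ∈ C)]
    rfl
  · obtain ⟨L, hL0, hL⟩ := volume_limit hd α (loopSys d α) rfl sh hact hchi
    refine ⟨L, ?_⟩
    have h1 := real_of_ennreal (a := fun n : ℕ => (n : ℝ) ^ ((d : ℝ) / 2 - 1)) hL0
      (Eventually.of_forall fun n => by positivity) hL
    refine h1.congr fun n => ?_
    congr 1
    rw [measureReal_def]
    congr 1
    rw [soup_congr hd1 α (fun C => (n : ℕ∞) < C.encard)]

end Pool.Agent.Results.MP_b22ef1_pr.AllLimits
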